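import Pool.Agent.V5helper26.IR.Stm

/-! Project IR, step EXT. -/

set_option autoImplicit false

open Finset Filter Topology
open scoped Classical

namespace Pool.Agent.V5helper26.IR

lemma EXT.mem_Om {α : Type} [Fintype α] (r : α → α → Prop) (M : ℕ) (f : α → ℕ) :
    f ∈ Om r M ↔ (∀ z, f z < M) ∧ ∀ a b, r a b → f a ≤ f b := by
  unfold Om
  simp [Fintype.mem_piFinset]

/-- the relation with the additional element `none` above `D0` and below `B` -/
def EXT.rel {α : Type} (r : α → α → Prop) (D0 B : Finset α) : Option α → Option α → Prop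
  | some z, some w => r z w
  | some z, none => z ∈ D0
  | none, some x => x ∈ B
  | none, none => False

lemma EXT.card_eq {α : Type} [Fintype α] (r : α → α → Prop) (M : ℕ) (D0 D1 B : Finset α)
    (hB : B.Nonempty) (t : ℕ) :
    NE r M D0 D1 B hB t =
      ((Om (EXT.rel r D0 B) M).filter fun g => (D1.map Function.Embedding.some).sup g + t ≤ g none).card := by
  unfold NE
  rw [← Finset.card_sigma]
  refine Finset.card_nbij' (fun p => fun o => o.elim p.2 p.1) (fun g => ⟨fun z => g (some z), g none⟩)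
    ?_ ?_ ?_ ?_
  · rintro ⟨f, u⟩ hp
    rw [Finset.mem_coe, Finset.mem_sigma, EXT.mem_Om, Finset.mem_Icc, max_le_iff, Finset.le_inf'_iff,
      Finset.sup_le_iff] at hp
    obtain ⟨⟨hf1, hf2⟩, ⟨h1, h2⟩, h3⟩ := hp
    rw [Finset.mem_coe, Finset.mem_filter, EXT.mem_Om]
    refine ⟨⟨?_, ?_⟩, ?_⟩
    · rintro (_ | z)
      · obtain ⟨b, hb⟩ := hB
        exact (h3 b hb).trans_lt (hf1 b)
      · exact hf1 z
    · rintro (_ | z) (_ | w) hzw
      · exact hzw.elim
      · exact h3 w hzw
      · exact h1 z hzw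
      · exact hf2 z w hzw
    · rw [Finset.sup_map]
      exact h2
  · intro g hg
    rw [Finset.mem_coe, Finset.mem_filter, EXT.mem_Om, Finset.sup_map] at hg
    obtain ⟨⟨hg1, hg2⟩, hg3⟩ := hg
    rw [Finset.mem_coe, Finset.mem_sigma, EXT.mem_Om, Finset.mem_Icc, max_le_iff, Finset.le_inf'_iff,
      Finset.sup_le_iff]
    exact ⟨⟨fun z => hg1 _, fun a b hab => hg2 (some a) (some b) hab⟩,
      ⟨fun z hz => hg2 (some z) none hz, hg3⟩, fun z hz => hg2 none (some z) hz⟩
  · rintro ⟨f, u⟩ _
    rfl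
  · intro g _
    funext o
    cases o <;> rfl

theorem t_EXT (hN : S_NBU) : S_EXT := by
  intro α _ r M D0 D1 B hB _ s t
  have h := hN (Option α) (EXT.rel r D0 B) M none (D1.map Function.Embedding.some) s t
  rw [EXT.card_eq, EXT.card_eq, EXT.card_eq, EXT.card_eq]
  simpa only [add_zero] using h

end Pool.Agent.V5helper26.IR
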