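import Pool.Agent.V5helper26.IR.Stm

/-! Project IR, steps NBU and EXT. -/

set_option autoImplicit false

open Finset Filter Topology
open scoped Classical FinsetFamily

namespace Pool.Agent.V5helper26.IR

/-- the normalised map: the values minus the value at `y`, and minus the value at `y` -/
def NBU.FF {α : Type} (y : α) (f : α → ℕ) : Option α → ℤ
  | none => -(f y : ℤ)
  | some z => (f z : ℤ) - f y

lemma NBU.FF_inj {α : Type} (y : α) : Function.Injective (NBU.FF y) := by
  intro f g h
  have h0 : -(f y : ℤ) = -(g y : ℤ) := congrFun h none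
  funext z
  have h1 : (f z : ℤ) - f y = (g z : ℤ) - g y := congrFun h (some z)
  omega

lemma NBU.mem_Om {α : Type} [Fintype α] (r : α → α → Prop) (M : ℕ) (f : α → ℕ) :
    f ∈ Om r M ↔ (∀ z, f z < M) ∧ ∀ a b, r a b → f a ≤ f b := by
  unfold Om
  simp [Fintype.mem_piFinset]

lemma NBU.sup_le {α : Type} (D : Finset α) (f : α → ℕ) (s n : ℕ) :
    D.sup f + s ≤ n ↔ (s ≤ n ∧ ∀ z ∈ D, f z + s ≤ n) := by
  constructor
  · intro h
    refine ⟨by omega, fun z hz => ?_⟩
    have := Finset.le_sup (f := f) hz
    omega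
  · rintro ⟨h1, h2⟩
    have : D.sup f ≤ n - s := by
      apply Finset.sup_le
      intro z hz
      have := h2 z hz
      omega
    omega

/-- recovering a map from a function on `Option α` -/
lemma NBU.exists_of {α : Type} [Fintype α] (r : α → α → Prop) (M : ℕ) (y : α) (H : Option α → ℤ)
    (hy : H (some y) = 0) (h0 : ∀ z, 0 ≤ H (some z) - H none) (h1 : ∀ z, H (some z) - H none < M)
    (hm : ∀ z w, r z w → H (some z) ≤ H (some w)) :
    ∃ h ∈ Om r M, NBU.FF y h = H := by
  refine ⟨fun z => (H (some z) - H none).toNat, ?_, ?_⟩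
  · rw [NBU.mem_Om]
    refine ⟨fun z => ?_, fun z w hzw => ?_⟩
    · have := h0 z
      have := h1 z
      show (H (some z) - H none).toNat < M
      omega
    · have := hm z w hzw
      show (H (some z) - H none).toNat ≤ (H (some w) - H none).toNat
      omega
  · funext o
    have hy0 := h0 y
    cases o with
    | none =>
      show -(((H (some y) - H none).toNat : ℕ) : ℤ) = H none
      rw [hy] at hy0 ⊢
      omega
    | some z =>
      have hz0 := h0 z
      show (((H (some z) - H none).toNat : ℕ) : ℤ) - ((H (some y) - H none).toNat : ℕ) = H (some z)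
      rw [hy] at hy0 ⊢
      omega

theorem t_NBU : S_NBU := by
  intro α _ r M y D s t
  set A := (Om r M).filter fun f => D.sup f ≤ f y with hA
  set B := (Om r M).filter fun f => D.sup f + (s + t) ≤ f y with hB
  set C := (Om r M).filter fun f => D.sup f + s ≤ f y with hC
  set E := (Om r M).filter fun f => D.sup f + t ≤ f y with hE
  have i1 : Function.Injective fun f : α → ℕ => NBU.FF y f - fun _ => (s : ℤ) := by
    intro f g h
    apply NBU.FF_inj y
    exact sub_left_injective h
  set S := A.image fun f => NBU.FF y f - fun _ => (s : ℤ) with hS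
  set T := B.image (NBU.FF y) with hT
  have cS : S.card = A.card := Finset.card_image_of_injective _ i1
  have cT : T.card = B.card := Finset.card_image_of_injective _ (NBU.FF_inj y)
  have hinf : (S ⊼ T).card ≤ E.card := by
    rw [← Finset.card_image_of_injective E i1]
    apply Finset.card_le_card
    intro H hH
    rw [Finset.mem_infs] at hH
    obtain ⟨a, ha, b, hb, rfl⟩ := hH
    rw [hS, Finset.mem_image] at ha
    rw [hT, Finset.mem_image] at hb
    obtain ⟨f, hf, rfl⟩ := ha
    obtain ⟨g, hg, rfl⟩ := hb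
    rw [hA, Finset.mem_filter, NBU.mem_Om] at hf
    rw [hB, Finset.mem_filter, NBU.mem_Om, NBU.sup_le] at hg
    obtain ⟨⟨hf1, hf2⟩, hf3⟩ := hf
    obtain ⟨⟨hg1, hg2⟩, hg3, hg4⟩ := hg
    have hf3' : ∀ z ∈ D, f z ≤ f y := fun z hz => (Finset.le_sup (f := f) hz).trans hf3
    set H' : Option α → ℤ := fun o => ((NBU.FF y f - fun _ => (s : ℤ)) ⊓ NBU.FF y g) o + s with hH'
    have en : H' none = min (-(f y : ℤ) - s) (-(g y : ℤ)) + s := rfl
    have ez : ∀ z, H' (some z) = min ((f z : ℤ) - f y - s) ((g z : ℤ) - g y) + s := fun z => rfl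
    obtain ⟨h, hh, he⟩ := NBU.exists_of r M y H'
      (by rw [ez]; omega) (fun z => by rw [ez, en]; omega)
      (fun z => by rw [ez, en]; have := hf1 z; have := hg1 z; omega)
      (fun z w hzw => by rw [ez, ez]; have := hf2 z w hzw; have := hg2 z w hzw; omega)
    rw [Finset.mem_image]
    refine ⟨h, ?_, ?_⟩
    · rw [hE, Finset.mem_filter, NBU.sup_le]
      refine ⟨hh, ?_, fun z hz => ?_⟩
      · have e1 : -(h y : ℤ) = NBU.FF y h none := rfl
        rw [he, en] at e1
        omega
      · have e1 : (h z : ℤ) - h y = NBU.FF y h (some z) := rfl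
        rw [he, ez] at e1
        have := hf3' z hz
        have := hg4 z hz
        omega
    · funext o
      show NBU.FF y h o - s = _
      rw [he]
      show ((NBU.FF y f - fun _ => (s : ℤ)) ⊓ NBU.FF y g) o + s - s = _
      ring
  have hsup : (S ⊻ T).card ≤ C.card := by
    rw [← Finset.card_image_of_injective C (NBU.FF_inj y)]
    apply Finset.card_le_card
    intro H hH
    rw [Finset.mem_sups] at hH
    obtain ⟨a, ha, b, hb, rfl⟩ := hH
    rw [hS, Finset.mem_image] at ha
    rw [hT, Finset.mem_image] at hb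
    obtain ⟨f, hf, rfl⟩ := ha
    obtain ⟨g, hg, rfl⟩ := hb
    rw [hA, Finset.mem_filter, NBU.mem_Om] at hf
    rw [hB, Finset.mem_filter, NBU.mem_Om, NBU.sup_le] at hg
    obtain ⟨⟨hf1, hf2⟩, hf3⟩ := hf
    obtain ⟨⟨hg1, hg2⟩, hg3, hg4⟩ := hg
    have hf3' : ∀ z ∈ D, f z ≤ f y := fun z hz => (Finset.le_sup (f := f) hz).trans hf3
    have en : ((NBU.FF y f - fun _ => (s : ℤ)) ⊔ NBU.FF y g) none =
      max (-(f y : ℤ) - s) (-(g y : ℤ)) := rfl
    have ez : ∀ z, ((NBU.FF y f - fun _ => (s : ℤ)) ⊔ NBU.FF y g) (some z) =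
      max ((f z : ℤ) - f y - s) ((g z : ℤ) - g y) := fun z => rfl
    obtain ⟨h, hh, he⟩ := NBU.exists_of r M y ((NBU.FF y f - fun _ => (s : ℤ)) ⊔ NBU.FF y g)
      (by rw [ez]; omega) (fun z => by rw [ez, en]; omega)
      (fun z => by rw [ez, en]; have := hf1 z; have := hg1 z; omega)
      (fun z w hzw => by rw [ez, ez]; have := hf2 z w hzw; have := hg2 z w hzw; omega)
    rw [Finset.mem_image]
    refine ⟨h, ?_, he⟩
    rw [hC, Finset.mem_filter, NBU.sup_le]
    refine ⟨hh, ?_, fun z hz => ?_⟩
    · have e1 : -(h y : ℤ) = NBU.FF y h none := rfl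
      rw [he, en] at e1
      omega
    · have e1 : (h z : ℤ) - h y = NBU.FF y h (some z) := rfl
      rw [he, ez] at e1
      have := hf3' z hz
      have := hg4 z hz
      omega
  have := Finset.le_card_infs_mul_card_sups S T
  rw [cS, cT] at this
  calc A.card * B.card ≤ (S ⊼ T).card * (S ⊻ T).card := this
    _ ≤ E.card * C.card := Nat.mul_le_mul hinf hsup
    _ = C.card * E.card := Nat.mul_comm _ _

end Pool.Agent.V5helper26.IR
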